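import Pool.Agent.H56.BD.StmtsT

/-!
# Module K1: the situation is mirror symmetric
-/

set_option autoImplicit false

namespace Pool.BD

open Relation

theorem k1 (h1 : WEQ) (h2 : WAN) (h3 : WLA) (h4 : W3) : K1 := by
  intro V _ G rk H q Q L R b hN hS
  obtain ⟨hinv, -, -, -⟩ := h4 V G rk H q Q L R b hN hS
  have heq := h1 V G rk H q Q L R b hN hS
  refine ⟨hS.1, hS.2.1, ?_⟩
  intro u hu y hy ha hp hlo hhi
  simp only [Ct.mir] at hp hlo hhi ⊢
  have hyb : Anc H q R y b := (hN.ok.isR.anc_iff hN.ok.parR hy hS.1).2 ⟨by omega, by omega⟩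
  have hyne : y ≠ b := by rintro rfl; omega
  have hyR : Re G rk y b := Anc.reach hN.ok.isR hN.ok.parR hyb
  have huD : u ∈ Ds G rk H b := ⟨hu, ReflTransGen.head ha hyR⟩
  obtain ⟨w, e, hw⟩ := h2 V G rk H q Q L R b hN hS y hyb
  obtain ⟨hpw, hwb⟩ := (heq _ _ _ hw).2 hyne
  have hI := (hinv _ _ _ hw).2.2
  rcases hI with ⟨h5, -, -⟩ | ⟨-, hwD, hyw, -⟩
  · exact absurd h5 hyne
  have hwH : w ∈ H := hwD.1
  have hwq : w ≠ q := by
    rintro rfl
    have h6 := Anc.rank hN.ok.parR (hN.ok.isR.root_anc hN.ok.parR y hy)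
    have := hyw.2
    omega
  have huw : u ≠ w := by
    rintro rfl
    have := hyw.2
    have := ha.2
    omega
  have hdn : Dn G H q Q R y u :=
    ⟨hy, ha.1.symm, fun he => hN.ok.isR.QH u hu (he ▸ ha.1.symm), fun _ he => hp he.symm⟩
  have h7 := h3 V G rk H q Q L R b hN hS y w e hw hyne u huD huw hdn
  have hdw : Dn G H q Q R y w := by
    have := hN.ok.isR.ch_dn hN.ok.parR hwH hwq
    rwa [hpw] at this
  have h8 := (hN.ok.isR.sep y u w hdn hdw h7).2.1 ⟨hwH, hwq, hpw⟩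
  have h9 := hN.ok.isR.anc_le hwb
  have h10 := hN.ok.isR.lh b hS.1
  omega

end Pool.BD
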