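import Pool.Agent.H56.BD.StmtsT

/-!
# Module W3: all states of the walk satisfy the invariant, the walk ends at the root
-/

set_option autoImplicit false

namespace Pool.BD

open Relation

namespace W3

variable {V : Type}

/-- existence of the next dart -/
theorem nxt_exists [Finite V] {G : SimpleGraph V} {H : Set V} {q : V} {Q : Set V} {L : Ct V}
    {D : Set V} {x : V} {e : ℤ} (hx : x ≠ q) : ∃ g, Nxt G H q Q L D x e g := by
  classical
  by_cases hne : ∃ z, z ∈ D ∧ Dn G H q Q L x z ∧ e < L.pos x z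
  · have hfin : {z | z ∈ D ∧ Dn G H q Q L x z ∧ e < L.pos x z}.Finite := Set.toFinite _
    obtain ⟨g, hg, hmin⟩ := Set.exists_min_image _ (fun z => L.pos x z) hfin hne
    exact ⟨g, Or.inl ⟨hg.1, hg.2.1, hg.2.2, fun z hz hd he => hmin z ⟨hz, hd, he⟩⟩⟩
  · refine ⟨L.par x, Or.inr ⟨fun z hz hd he => hne ⟨z, hz, hd, he⟩, hx, rfl⟩⟩

end W3

theorem w3 (h1 : W1) (h2 : W2) (h3 : K0) : W3 := by
  intro V _ G rk H q Q L R b hN hS
  have hb : b ∈ Ds G rk H b := ⟨hS.1, ReflTransGen.refl⟩
  have hinv : ∀ x w e, Wk G H q Q L (Ds G rk H b) b x w e →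
      Inv G rk H q Q L (Ds G rk H b) b x w e := by
    intro x w e hw
    induction hw with
    | base =>
      refine ⟨hb, ?_, Or.inl ⟨rfl, rfl, rfl⟩⟩
      rintro ⟨x, hx, y, hy, ha, hp, h5, -⟩
      have := (h3 V G rk H q Q L R b hN hS).2 x hx y hy ha hp
      omega
    | step _ hn ih => exact (h2 V G rk H q Q L R b hN hS _ _ _ ih _ hn).1
  refine ⟨hinv, fun x w e _ hx => W3.nxt_exists hx, ?_, ?_⟩
  · intro w e hw z hz hd hlt
    have h4 := h1 V G rk H q Q L R b hN hS q w e (hinv q w e hw) z hz hd hlt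
    have h5 := Anc.rank hN.ok.parL (hN.ok.isL.root_anc hN.ok.parL z hz.1)
    have := h4.2
    omega
  · have key : ∀ n, ∀ x w e, Wk G H q Q L (Ds G rk H b) b x w e → rk x = n →
        ∃ w e, Wk G H q Q L (Ds G rk H b) b q w e := by
      intro n
      induction n using Nat.strong_induction_on with
      | _ n ih =>
        intro x w e hw hn
        by_cases hx : x = q
        · subst hx; exact ⟨w, e, hw⟩
        · obtain ⟨g, hg⟩ := W3.nxt_exists (G := G) (H := H) (Q := Q) (L := L)
            (D := Ds G rk H b) (e := e) hx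
          have h4 := h2 V G rk H q Q L R b hN hS _ _ _ (hinv x w e hw) _ hg
          exact ih (rk g) (by have := h4.2.2; omega) g x _ (Wk.step hw hg) rfl
    exact key _ b b _ Wk.base rfl

end Pool.BD
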