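import Pool.Agent.H56.BD.StmtsT

/-!
# Module WAN: an `R`-ancestor of `b` is a state of the walk
-/

set_option autoImplicit false

namespace Pool.BD

open Relation

theorem wan (h1 : W3) (h2 : WEQ) : WAN := by
  intro V _ G rk H q Q L R b hN hS x hx
  obtain ⟨hinv, hnx, -, -⟩ := h1 V G rk H q Q L R b hN hS
  have heq := h2 V G rk H q Q L R b hN hS
  induction hx using ReflTransGen.head_induction_on with
  | refl => exact ⟨b, _, Wk.base⟩
  | @head x y hxy hyb ih =>
    obtain ⟨w, e, hw⟩ := ih
    obtain ⟨hyH, hyq, hpar⟩ := hxy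
    obtain ⟨g, hg⟩ := hnx y w e hw hyq
    have hst := Wk.step hw hg
    have hgy : g ≠ y := by
      rintro rfl
      rcases hg with ⟨-, hd, -, -⟩ | ⟨-, -, hp⟩
      · exact hd.2.1.ne rfl
      · have := hN.ok.parL g hyH hyq
        rw [← hp] at this
        omega
    have hgb : g ≠ b := by
      rcases (hinv _ _ _ hst).2.2 with ⟨h3, h4, -⟩ | ⟨h3, -⟩
      · exact absurd (h3.trans h4.symm) hgy
      · exact h3
    have h5 := ((heq _ _ _ hst).2 hgb).1
    rw [hpar] at h5
    subst h5
    exact ⟨_, _, hst⟩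

end Pool.BD
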